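import Pool.Agent.H53.UK.Targets

/-!
MP_c62aed_lc, row TRU: a random formula is a random choice from random candidates.
-/

set_option autoImplicit false

namespace Pool.Agent.H81.UK

open Pool.Agent.H53.UK

/-- Replace the chosen candidates by the clauses of `G`. -/
def sw {n k m μ : ℕ} (H : Fin m × Fin μ → KC n k) (r : Fin m → Fin μ) (G : KCNF n k m) :
    Fin m × Fin μ → KC n k := fun c => if c.2 = r c.1 then G c.1 else H c

theorem FU_sw {n k m μ : ℕ} (H : Fin m × Fin μ → KC n k) (r : Fin m → Fin μ)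
    (G : KCNF n k m) : FU (sw H r G) r = G := by
  funext j
  simp [FU, sw]

theorem sw_sw {n k m μ : ℕ} (H : Fin m × Fin μ → KC n k) (r : Fin m → Fin μ)
    (G : KCNF n k m) : sw (sw H r G) r (FU H r) = H := by
  funext c
  obtain ⟨j, i⟩ := c
  by_cases h : i = r j
  · subst h
    simp [FU, sw]
  · simp [sw, h]

/-- The exchange of `F` and the chosen clauses of `H`. -/
def eqv {n k m μ : ℕ} (P : KCNF n k m → Prop) :
    {F : KCNF n k m // P F} × ((Fin m × Fin μ → KC n k) × (Fin m → Fin μ)) ≃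
      {u : (Fin m × Fin μ → KC n k) × (Fin m → Fin μ) // P (FU u.1 u.2)} × KCNF n k m where
  toFun a := (⟨(sw a.2.1 a.2.2 a.1.1, a.2.2), by
    have h := FU_sw a.2.1 a.2.2 a.1.1
    show P (FU (sw a.2.1 a.2.2 a.1.1) a.2.2)
    rw [h]; exact a.1.2⟩, FU a.2.1 a.2.2)
  invFun b := (⟨FU b.1.1.1 b.1.1.2, b.1.2⟩, (sw b.1.1.1 b.1.1.2 b.2, b.1.1.2))
  left_inv a := by
    obtain ⟨⟨F, hF⟩, H, r⟩ := a
    have h1 := FU_sw H r F
    have h2 := sw_sw H r F
    simp only [h1, h2]
  right_inv b := by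
    obtain ⟨⟨⟨H, r⟩, hP⟩, G⟩ := b
    have h1 := FU_sw H r G
    have h2 := sw_sw H r G
    simp only [h1, h2]

theorem pf_TRU : T_TRU := by
  intro n k m μ P
  rw [← Nat.card_prod, ← Nat.card_prod, ← Nat.card_prod]
  exact Nat.card_congr (eqv P)

end Pool.Agent.H81.UK
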